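import Pool.Agent.helper29.NS.SpecD

/-!
# Module AN: the boundary vorticity is nonzero at some time
-/

set_option autoImplicit false

namespace NS

open MeasureTheory Filter Topology Set

/-- The disc is a neighbourhood of its centre. -/
theorem AN_nhds (c : ℝ × ℝ) (ε : ℝ) (hε : 0 < ε) : Dsc c ε ∈ 𝓝 c := by
  have h1 : IsOpen (Dsc c ε) := by
    have : Continuous fun q : ℝ × ℝ => (q.1 - c.1) ^ 2 + (q.2 - c.2) ^ 2 := by fun_prop
    exact isOpen_lt this continuous_const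
  refine h1.mem_nhds ?_
  change (c.1 - c.1) ^ 2 + (c.2 - c.2) ^ 2 < ε ^ 2
  have : 0 < ε ^ 2 := by positivity
  simpa using this

/-- The differential inequality of the difference. -/
theorem AN_ineq {Ω : Set (ℝ × ℝ)} {ν : ℝ} {a b m n : ℝ × ℝ × ℝ → ℝ} (h : DM Ω ν a b m n) :
    ∃ K : ℝ, ∀ t, ∀ q ∈ Ω, |heat ν a (t, q)| + |heat ν b (t, q)| ≤ K * (|a (t, q)| + |b (t, q)|
      + |dx a (t, q)| + |dy a (t, q)| + |dx b (t, q)| + |dy b (t, q)|) := by
  obtain ⟨K, hK⟩ := h.bd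
  refine ⟨2 * K, fun t q hq => ?_⟩
  obtain ⟨k1, k2, k3, k4, k5, k6⟩ := hK (t, q)
  have hK0 : 0 ≤ K := le_trans (abs_nonneg _) k1
  have ea := h.ea t q hq
  have eb := h.eb t q hq
  have ha : heat ν a (t, q) = -(m (t, q) * dx a (t, q) + n (t, q) * dy a (t, q)
      + a (t, q) * dx m (t, q) + b (t, q) * dy m (t, q)) := by
    unfold heat
    linarith
  have hb : heat ν b (t, q) = -(m (t, q) * dx b (t, q) + n (t, q) * dy b (t, q)
      + a (t, q) * dx n (t, q) + b (t, q) * dy n (t, q)) := by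
    unfold heat
    linarith
  have key : ∀ x y : ℝ, |x| ≤ K → |x * y| ≤ K * |y| := by
    intro x y hx
    rw [abs_mul]
    exact mul_le_mul_of_nonneg_right hx (abs_nonneg _)
  have key' : ∀ x y : ℝ, |y| ≤ K → |x * y| ≤ K * |x| := by
    intro x y hy
    rw [mul_comm x y]
    exact key y x hy
  have h1 : |heat ν a (t, q)| ≤ K * |dx a (t, q)| + K * |dy a (t, q)| + K * |a (t, q)|
      + K * |b (t, q)| := by
    rw [ha, abs_neg]
    refine (abs_add_le _ _).trans (add_le_add ((abs_add_le _ _).trans (add_le_add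
      ((abs_add_le _ _).trans (add_le_add (key _ _ k1) (key _ _ k2))) (key' _ _ k3))) (key' _ _ k4))
  have h2 : |heat ν b (t, q)| ≤ K * |dx b (t, q)| + K * |dy b (t, q)| + K * |a (t, q)|
      + K * |b (t, q)| := by
    rw [hb, abs_neg]
    refine (abs_add_le _ _).trans (add_le_add ((abs_add_le _ _).trans (add_le_add
      ((abs_add_le _ _).trans (add_le_add (key _ _ k1) (key _ _ k2))) (key' _ _ k5))) (key' _ _ k6))
  have h3 : 0 ≤ K * |dx a (t, q)| := mul_nonneg hK0 (abs_nonneg _)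
  have h4 : 0 ≤ K * |dy a (t, q)| := mul_nonneg hK0 (abs_nonneg _)
  have h5 : 0 ≤ K * |dx b (t, q)| := mul_nonneg hK0 (abs_nonneg _)
  have h6 : 0 ≤ K * |dy b (t, q)| := mul_nonneg hK0 (abs_nonneg _)
  nlinarith

theorem AN (hAC : AC_stmt) (hHZ : HZ_stmt) (hUB : UB_stmt) (hUI : UI_stmt) : AN_stmt := by
  intro Ω ν a b m n c θ δ f hΩ hcon hν hDM hC hf hne
  by_contra hcon'
  have hv : ∀ t, vort a b (t, c) = 0 := by
    intro t
    by_contra h
    exact hcon' ⟨t, h⟩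
  obtain ⟨ε, hε, hz⟩ := hAC Ω ν a b m n c θ δ f hΩ hν.ne' hDM hC hf
  have hV' := hHZ Ω ν a b m n c θ δ f hΩ hν.ne' hDM hC hf (Dsc c ε) (AN_nhds c ε hε)
    (fun t q hq => by rw [hz t q hq, hv t])
  have hU := hUB Ω ν a b m n c θ δ f hΩ hν hDM hC hV'
  obtain ⟨K, hK⟩ := AN_ineq hDM
  have hfin := hUI Ω ν K a b hΩ hcon.isPreconnected hν
    ((hDM.ca.of_le (by norm_num)).contDiffOn) ((hDM.cb.of_le (by norm_num)).contDiffOn) hK hU
  obtain ⟨t, q, hq, hn⟩ := hne
  exact hn (hfin t q hq)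

end NS
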