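import Pool.Agent.helper29.NS.SpecC

/-!
# Module CB: Baire category in the time variable
-/

set_option autoImplicit false

namespace NS

open MeasureTheory Filter Topology Set

theorem CB : CB_stmt := by
  intro m n ρ α β hρ hαβ hm hn h
  -- the closed sets
  let e : ℕ → ℝ := fun k => ρ / (k + 2)
  have he0 : ∀ k, 0 < e k := fun k => by positivity
  have he1 : ∀ k, e k < ρ := by
    intro k
    rw [div_lt_iff₀ (by positivity)]
    nlinarith [(Nat.cast_nonneg k : (0 : ℝ) ≤ k)]
  let F : ℕ → Set ℝ := fun k => {t | ∀ q ∈ Ring (ρ - e k) ρ, m (t, q) = 0 ∧ n (t, q) = 0}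
  have hF : ∀ k, IsClosed (F k) := by
    intro k
    have hFk : F k = ⋂ q ∈ Ring (ρ - e k) ρ, {t | m (t, q) = 0 ∧ n (t, q) = 0} := by
      ext t
      simp only [F, mem_ofPred_eq, mem_iInter]
    rw [hFk]
    refine isClosed_biInter fun q _ => ?_
    have h1 : IsClosed {t : ℝ | m (t, q) = 0} :=
      isClosed_eq (hm.comp (continuous_id.prodMk continuous_const)) continuous_const
    have h2 : IsClosed {t : ℝ | n (t, q) = 0} :=
      isClosed_eq (hn.comp (continuous_id.prodMk continuous_const)) continuous_const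
    exact h1.inter h2
  let G : ℕ → Set ℝ := fun k => F k ∪ (Ioo α β)ᶜ
  have hG : ∀ k, IsClosed (G k) := fun k => (hF k).union isOpen_Ioo.isClosed_compl
  have hU : ⋃ k, G k = univ := by
    rw [eq_univ_iff_forall]
    intro t
    rw [mem_iUnion]
    by_cases ht : t ∈ Ioo α β
    · obtain ⟨ε, hε, hερ, hz⟩ := h t ht
      obtain ⟨k, hk⟩ := exists_nat_gt (ρ / ε)
      refine ⟨k, Or.inl ?_⟩
      have hke : e k ≤ ε := by
        rw [div_lt_iff₀ hε] at hk
        rw [div_le_iff₀ (by positivity)]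
        nlinarith
      intro q hq
      refine hz q ⟨?_, hq.2⟩
      refine lt_of_le_of_lt ?_ hq.1
      have h3 : 0 ≤ ρ - ε := by linarith
      have h4 : ρ - ε ≤ ρ - e k := by linarith
      exact pow_le_pow_left₀ h3 h4 2
    · exact ⟨0, Or.inr ht⟩
  have hD := dense_iUnion_interior_of_closed hG hU
  obtain ⟨t, ht, htU⟩ := hD.inter_open_nonempty (Ioo α β) isOpen_Ioo (nonempty_Ioo.2 hαβ)
  rw [mem_iUnion] at htU
  obtain ⟨k, hk⟩ := htU
  obtain ⟨l, u, htlu, hlu⟩ := mem_nhds_iff_exists_Ioo_subset.1 (isOpen_interior.mem_nhds hk)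
  refine ⟨max α l, min β u, e k, le_max_left _ _, ?_, min_le_left _ _, he0 k, he1 k, ?_⟩
  · exact lt_trans (max_lt ht.1 htlu.1) (lt_min ht.2 htlu.2)
  · intro s hs q hq
    have hs1 : α < s := lt_of_le_of_lt (le_max_left _ _) hs.1
    have hs2 : l < s := lt_of_le_of_lt (le_max_right _ _) hs.1
    have hs3 : s < β := lt_of_lt_of_le hs.2 (min_le_left _ _)
    have hs4 : s < u := lt_of_lt_of_le hs.2 (min_le_right _ _)
    rcases interior_subset (hlu ⟨hs2, hs4⟩) with h5 | h5
    · exact h5 q hq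
    · exact absurd ⟨hs1, hs3⟩ h5

end NS
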